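import Pool.Agent.Y166.PS.Cover

/-! The group action whose quotients are the compact manifolds. -/

set_option autoImplicit false

open scoped Manifold ContDiff Topology
open Set Filter Complex

namespace Pool.Agent.Y166.PS

open Pool.Agent.Results.MP_c7085a_an.PointSep

/-- The universal covering of the set of the points `e` of `ℂ ^ (3 + r)` with
`(Im e₀, Im e₁) ≠ 0`. -/
def W (_N r : ℕ) (_c : ℂ) : Type := ℝ × ℝ × ℂ × ℂ × (Fin r → ℂ)

section
variable {N r : ℕ} {c : ℂ}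

noncomputable instance : TopologicalSpace (W N r c) :=
  inferInstanceAs (TopologicalSpace (ℝ × ℝ × ℂ × ℂ × (Fin r → ℂ)))
instance : T2Space (W N r c) := inferInstanceAs (T2Space (ℝ × ℝ × ℂ × ℂ × (Fin r → ℂ)))
instance : LocallyCompactSpace (W N r c) :=
  inferInstanceAs (LocallyCompactSpace (ℝ × ℝ × ℂ × ℂ × (Fin r → ℂ)))
instance : ConnectedSpace (W N r c) :=
  inferInstanceAs (ConnectedSpace (ℝ × ℝ × ℂ × ℂ × (Fin r → ℂ)))

/-- The discrete group. -/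
abbrev G (r : ℕ) : Type := Gam × Multiplicative (ℤ × (Fin r → ℤ × ℤ))

/-- the integer part of the shift of the logarithm -/
def gj (g : G r) : ℤ := (Multiplicative.toAdd g.2).1
/-- the lattice part -/
def gl (g : G r) (i : Fin r) : ℂ :=
  (((Multiplicative.toAdd g.2).2 i).1 : ℂ) + (((Multiplicative.toAdd g.2).2 i).2 : ℂ) * I

theorem gj_mul (g h : G r) : gj (g * h) = gj g + gj h := rfl
theorem gj_one : gj (1 : G r) = 0 := rfl
theorem gl_mul (g h : G r) (i : Fin r) : gl (g * h) i = gl g i + gl h i := by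
  unfold gl
  have h1 : (Multiplicative.toAdd (g * h).2).2 i =
      (Multiplicative.toAdd g.2).2 i + (Multiplicative.toAdd h.2).2 i := rfl
  rw [h1]
  push_cast [Prod.fst_add, Prod.snd_add]
  ring
theorem gl_one (i : Fin r) : gl (1 : G r) i = 0 := by
  unfold gl
  have h1 : (Multiplicative.toAdd (1 : G r).2).2 i = 0 := rfl
  rw [h1]; simp

/-- logarithm of the scaling factor -/
noncomputable def ls : ℝ := Real.log s

theorem ls_pos : 0 < ls := Real.log_pos one_lt_s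

/-- the action on points -/
noncomputable def act (N : ℕ) (c : ℂ) (g : G r) (y : ℝ × ℝ × ℂ × ℂ × (Fin r → ℂ)) :
    ℝ × ℝ × ℂ × ℂ × (Fin r → ℂ) :=
  (A ^ g.1.k * y.1 + s1 g.1.l, A ^ g.1.k * y.2.1 + s1 g.1.m,
    y.2.2.1 + ((g.1.k : ℂ) * (ls : ℂ) + (gj g : ℂ) * (N * (Real.pi * I))),
    ((B ^ g.1.k : ℝ) : ℂ) * y.2.2.2.1 + ((s2 g.1.l : ℂ) + (s2 g.1.m : ℂ) * I),
    fun i => y.2.2.2.2 i + ((gj g : ℂ) * c + gl g i))

theorem act_one (y : ℝ × ℝ × ℂ × ℂ × (Fin r → ℂ)) : act N c (1 : G r) y = y := by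
  obtain ⟨a, b, w, e, t⟩ := y
  simp only [act, Prod.fst_one, one_k, one_l, one_m, gj_one, gl_one, zpow_zero, map_zero, one_mul,
    add_zero, Int.cast_zero, zero_mul, ofReal_one, ofReal_zero]

theorem act_mul (g h : G r) (y : ℝ × ℝ × ℂ × ℂ × (Fin r → ℂ)) :
    act N c (g * h) y = act N c g (act N c h y) := by
  obtain ⟨a, b, w, e, t⟩ := y
  have hA : A ≠ 0 := A_pos.ne'
  have hB : B ≠ 0 := B_ne
  simp only [act, Prod.fst_mul, mul_k, mul_l, mul_m, gj_mul, gl_mul, map_add, map_mul, s1_zpow,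
    s2_zpow, zpow_add₀ hA, zpow_add₀ hB]
  refine Prod.ext ?_ (Prod.ext ?_ (Prod.ext ?_ (Prod.ext ?_ ?_)))
  · simp only; ring
  · simp only; ring
  · simp only; push_cast; ring
  · simp only; push_cast; ring
  · funext i
    simp only
    push_cast
    ring

noncomputable instance : SMul (G r) (W N r c) := ⟨fun g y => act N c g y⟩

theorem smul_def' (g : G r) (y : W N r c) : g • y = act N c g y := rfl

noncomputable instance : MulAction (G r) (W N r c) where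
  one_smul y := act_one y
  mul_smul g h y := act_mul g h y

theorem continuous_act (g : G r) : Continuous (act N c g) := by
  unfold act
  fun_prop

instance : ContinuousConstSMul (G r) (W N r c) where
  continuous_const_smul g := continuous_act g

theorem im_shift (k j : ℤ) : ((k : ℂ) * (ls : ℂ) + (j : ℂ) * (N * (Real.pi * I))).im =
    j * N * Real.pi := by
  simp
  ring

theorem re_shift (k j : ℤ) : ((k : ℂ) * (ls : ℂ) + (j : ℂ) * (N * (Real.pi * I))).re =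
    k * ls := by
  simp

theorem eq_one_of_fix (hN : 0 < N) (g : G r) (y : W N r c) (h : g • y = y) : g = 1 := by
  rw [smul_def'] at h
  have hw : y.2.2.1 + ((g.1.k : ℂ) * (ls : ℂ) + (gj g : ℂ) * (N * (Real.pi * I))) = y.2.2.1 :=
    congrArg (fun z : ℝ × ℝ × ℂ × ℂ × (Fin r → ℂ) => z.2.2.1) h
  have hw' : (g.1.k : ℂ) * (ls : ℂ) + (gj g : ℂ) * (N * (Real.pi * I)) = 0 := by
    linear_combination hw
  have hk : g.1.k = 0 := by
    have h1 := congrArg Complex.re hw'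
    rw [re_shift, zero_re] at h1
    rcases mul_eq_zero.1 h1 with h2 | h2
    · exact_mod_cast h2
    · exact absurd h2 ls_pos.ne'
  have hj : gj g = 0 := by
    have h1 := congrArg Complex.im hw'
    rw [im_shift, zero_im] at h1
    rcases mul_eq_zero.1 h1 with h2 | h2
    · rcases mul_eq_zero.1 h2 with h3 | h3
      · exact_mod_cast h3
      · exact absurd h3 (by exact_mod_cast hN.ne')
    · exact absurd h2 Real.pi_ne_zero
  have ha : A ^ g.1.k * y.1 + s1 g.1.l = y.1 :=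
    congrArg (fun z : ℝ × ℝ × ℂ × ℂ × (Fin r → ℂ) => z.1) h
  have hb : A ^ g.1.k * y.2.1 + s1 g.1.m = y.2.1 :=
    congrArg (fun z : ℝ × ℝ × ℂ × ℂ × (Fin r → ℂ) => z.2.1) h
  rw [hk, zpow_zero, one_mul] at ha hb
  have hl : g.1.l = 0 := s1_inj (by linarith)
  have hm : g.1.m = 0 := s1_inj (by linarith)
  have ht : (fun i => y.2.2.2.2 i + ((gj g : ℂ) * c + gl g i)) = y.2.2.2.2 :=
    congrArg (fun z : ℝ × ℝ × ℂ × ℂ × (Fin r → ℂ) => z.2.2.2.2) h
  refine Prod.ext ?_ ?_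
  · ext1
    · exact hk
    · exact hl
    · exact hm
  · apply Multiplicative.toAdd.injective
    refine Prod.ext hj ?_
    funext i
    have h1 : y.2.2.2.2 i + ((gj g : ℂ) * c + gl g i) = y.2.2.2.2 i := congrFun ht i
    rw [hj, Int.cast_zero, zero_mul, zero_add] at h1
    have h2 : gl g i = 0 := by linear_combination h1
    unfold gl at h2
    have h3 := congrArg Complex.re h2
    have h4 := congrArg Complex.im h2
    simp at h3 h4
    exact Prod.ext (by exact_mod_cast h3) (by exact_mod_cast h4)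

/-- bound for the exponent -/
theorem abs_k_bound {k : ℤ} {R : ℝ} (M : ℕ) (hM : R / ls ≤ M) (h : |(k : ℝ) * ls| ≤ R) :
    k ∈ Icc (-(M : ℤ)) M := by
  apply int_bound (R := R / ls) M hM
  rw [abs_mul, abs_of_pos ls_pos] at h
  rwa [le_div_iff₀ ls_pos]

theorem A_zpow_le {k : ℤ} {M : ℕ} (h : k ∈ Icc (-(M : ℤ)) M) : A ^ k ≤ A ^ M ∧ |B ^ k| ≤ A ^ M := by
  have h1 : ∀ k : ℤ, k ≤ M → A ^ k ≤ A ^ M := by
    intro k hk
    rw [← zpow_natCast]
    exact zpow_le_zpow_right₀ one_lt_A.le hk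
  refine ⟨h1 k h.2, ?_⟩
  rw [abs_B_zpow, s_zpow_sq]
  exact h1 _ (by have := h.1; omega)

/-- coordinates on the group -/
def gc (g : G r) : (ℤ × (ℤ × ℤ) × (ℤ × ℤ)) × (ℤ × (Fin r → ℤ × ℤ)) :=
  (coords g.1, Multiplicative.toAdd g.2)

theorem gc_injective : Function.Injective (gc (r := r)) := by
  intro g h hgh
  have h1 := congrArg Prod.fst hgh
  have h2 := congrArg Prod.snd hgh
  exact Prod.ext (coords_injective h1) (Multiplicative.toAdd.injective h2)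

theorem norm_bound {K : Set (W N r c)} (hK : IsCompact K) : ∃ R : ℝ, 0 ≤ R ∧
    ∀ y ∈ K, |y.1| ≤ R ∧ |y.2.1| ≤ R ∧ ‖y.2.2.1‖ ≤ R ∧ ‖y.2.2.2.1‖ ≤ R ∧
      ∀ i, ‖y.2.2.2.2 i‖ ≤ R := by
  obtain ⟨R, hR⟩ := IsCompact.exists_bound_of_continuousOn
    (α := ℝ × ℝ × ℂ × ℂ × (Fin r → ℂ)) (E := ℝ × ℝ × ℂ × ℂ × (Fin r → ℂ)) (s := K) hK
    (f := fun y => y) continuousOn_id
  refine ⟨max R 0, le_max_right _ _, fun y hy => ?_⟩
  have h := (hR y hy).trans (le_max_left R 0)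
  have h1 : ‖y.1‖ ≤ max R 0 := (norm_fst_le y).trans h
  have h2 : ‖y.2‖ ≤ max R 0 := (norm_snd_le y).trans h
  have h3 : ‖y.2.1‖ ≤ max R 0 := (norm_fst_le y.2).trans h2
  have h4 : ‖y.2.2‖ ≤ max R 0 := (norm_snd_le y.2).trans h2
  have h5 : ‖y.2.2.1‖ ≤ max R 0 := (norm_fst_le y.2.2).trans h4
  have h6 : ‖y.2.2.2‖ ≤ max R 0 := (norm_snd_le y.2.2).trans h4
  have h7 : ‖y.2.2.2.1‖ ≤ max R 0 := (norm_fst_le y.2.2.2).trans h6
  have h8 : ‖y.2.2.2.2‖ ≤ max R 0 := (norm_snd_le y.2.2.2).trans h6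
  exact ⟨h1, h3, h5, h7, fun i => (norm_le_pi_norm _ i).trans h8⟩

theorem act_bound (hN : 0 < N) (R : ℝ) (hR : 0 ≤ R) (M : ℕ) (hM1 : 2 * R / ls ≤ M)
    (hM2 : 2 * R ≤ M) (M' : ℕ) (hM' : R + A ^ M * R ≤ M') (M'' : ℕ)
    (hM'' : 2 * R + M * ‖c‖ ≤ M'') (y : W N r c) (g : G r)
    (h1 : |y.1| ≤ R ∧ |y.2.1| ≤ R ∧ ‖y.2.2.1‖ ≤ R ∧ ‖y.2.2.2.1‖ ≤ R ∧ ∀ i, ‖y.2.2.2.2 i‖ ≤ R)
    (h2 : |(g • y).1| ≤ R ∧ |(g • y).2.1| ≤ R ∧ ‖(g • y).2.2.1‖ ≤ R ∧ ‖(g • y).2.2.2.1‖ ≤ R ∧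
      ∀ i, ‖(g • y).2.2.2.2 i‖ ≤ R) :
    gc g ∈ (Icc (-(M : ℤ)) M ×ˢ ((Icc (-(M' : ℤ)) M' ×ˢ Icc (-(M' : ℤ)) M') ×ˢ
      (Icc (-(M' : ℤ)) M' ×ˢ Icc (-(M' : ℤ)) M'))) ×ˢ (Icc (-(M : ℤ)) M ×ˢ
      (univ.pi fun _ : Fin r => Icc (-(M'' : ℤ)) M'' ×ˢ Icc (-(M'' : ℤ)) M'')) := by
  obtain ⟨a1, a2, a3, a4, a5⟩ := h1
  obtain ⟨b1, b2, b3, b4, b5⟩ := h2
  have ew : (g • y).2.2.1 =
    y.2.2.1 + ((g.1.k : ℂ) * (ls : ℂ) + (gj g : ℂ) * (N * (Real.pi * I))) := rfl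
  have hw : ‖(g.1.k : ℂ) * (ls : ℂ) + (gj g : ℂ) * (N * (Real.pi * I))‖ ≤ 2 * R := by
    have e : (g.1.k : ℂ) * (ls : ℂ) + (gj g : ℂ) * (N * (Real.pi * I)) =
        (g • y).2.2.1 - y.2.2.1 := by rw [ew]; ring
    rw [e]
    exact (norm_sub_le _ _).trans (by linarith)
  have hk : g.1.k ∈ Icc (-(M : ℤ)) M := by
    apply abs_k_bound M hM1
    rw [← re_shift (N := N) g.1.k (gj g)]
    exact (abs_re_le_norm _).trans hw
  have hj : gj g ∈ Icc (-(M : ℤ)) M := by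
    apply int_bound (R := 2 * R) M hM2
    have h3 := (abs_im_le_norm _).trans hw
    rw [im_shift, abs_mul, abs_mul, Nat.abs_cast, abs_of_pos Real.pi_pos] at h3
    have h4 : (1 : ℝ) ≤ N := by exact_mod_cast hN
    have h5 : (1 : ℝ) ≤ Real.pi := by linarith [Real.pi_gt_three]
    have h6 : (1 : ℝ) ≤ N * Real.pi := one_le_mul_of_one_le_of_one_le h4 h5
    have h7 := abs_nonneg ((gj g : ℤ) : ℝ)
    nlinarith
  obtain ⟨hAk, hBk⟩ := A_zpow_le hk
  have hA0 : 0 < A ^ g.1.k := A_zpow_pos _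
  have ea : (g • y).1 = A ^ g.1.k * y.1 + s1 g.1.l := rfl
  have eb : (g • y).2.1 = A ^ g.1.k * y.2.1 + s1 g.1.m := rfl
  have ee : (g • y).2.2.2.1 =
    ((B ^ g.1.k : ℝ) : ℂ) * y.2.2.2.1 + ((s2 g.1.l : ℂ) + (s2 g.1.m : ℂ) * I) := rfl
  have c0 : |s1 g.1.l| ≤ R + A ^ M * R := by
    have e : s1 g.1.l = (g • y).1 - A ^ g.1.k * y.1 := by rw [ea]; ring
    rw [e]
    refine (abs_sub _ _).trans (add_le_add b1 ?_)
    rw [abs_mul, abs_of_pos hA0]
    exact mul_le_mul hAk a1 (abs_nonneg _) (by have := A_pos; positivity)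
  have c1 : |s1 g.1.m| ≤ R + A ^ M * R := by
    have e : s1 g.1.m = (g • y).2.1 - A ^ g.1.k * y.2.1 := by rw [eb]; ring
    rw [e]
    refine (abs_sub _ _).trans (add_le_add b2 ?_)
    rw [abs_mul, abs_of_pos hA0]
    exact mul_le_mul hAk a2 (abs_nonneg _) (by have := A_pos; positivity)
  have c2 : ‖(s2 g.1.l : ℂ) + (s2 g.1.m : ℂ) * I‖ ≤ R + A ^ M * R := by
    have e : (s2 g.1.l : ℂ) + (s2 g.1.m : ℂ) * I =
        (g • y).2.2.2.1 - ((B ^ g.1.k : ℝ) : ℂ) * y.2.2.2.1 := by rw [ee]; ring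
    rw [e]
    refine (norm_sub_le _ _).trans (add_le_add b4 ?_)
    rw [norm_mul, Complex.norm_real, Real.norm_eq_abs]
    exact mul_le_mul hBk a4 (norm_nonneg _) (by have := A_pos; positivity)
  have c3 : |s2 g.1.l| ≤ R + A ^ M * R := by
    refine le_trans ?_ c2
    have := abs_re_le_norm ((s2 g.1.l : ℂ) + (s2 g.1.m : ℂ) * I)
    simpa using this
  have c4 : |s2 g.1.m| ≤ R + A ^ M * R := by
    refine le_trans ?_ c2
    have := abs_im_le_norm ((s2 g.1.l : ℂ) + (s2 g.1.m : ℂ) * I)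
    simpa using this
  refine ⟨⟨hk, ⟨int_bound M' hM' (bound_Z c0 c3).1, int_bound M' hM' (bound_Z c0 c3).2⟩,
    int_bound M' hM' (bound_Z c1 c4).1, int_bound M' hM' (bound_Z c1 c4).2⟩, hj, ?_⟩
  intro i _
  have et : (g • y).2.2.2.2 i = y.2.2.2.2 i + ((gj g : ℂ) * c + gl g i) := rfl
  have hjc : ‖(gj g : ℂ) * c‖ ≤ M * ‖c‖ := by
    rw [norm_mul]
    apply mul_le_mul_of_nonneg_right _ (norm_nonneg _)
    rw [Complex.norm_intCast]
    have h3 := hj.1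
    have h4 := hj.2
    rw [abs_le]
    constructor
    · have : -(M : ℝ) ≤ ((gj g : ℤ) : ℝ) := by exact_mod_cast h3
      exact this
    · exact_mod_cast h4
  have hl : ‖gl g i‖ ≤ 2 * R + M * ‖c‖ := by
    have e : gl g i = (g • y).2.2.2.2 i - y.2.2.2.2 i - (gj g : ℂ) * c := by rw [et]; ring
    rw [e]
    refine (norm_sub_le _ _).trans (add_le_add ((norm_sub_le _ _).trans ?_) hjc)
    linarith [a5 i, b5 i]
  constructor
  · apply int_bound M'' hM''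
    refine le_trans ?_ hl
    have h3 := abs_re_le_norm (gl g i)
    have h4 : (gl g i).re = (((Multiplicative.toAdd g.2).2 i).1 : ℝ) := by simp [gl]
    rw [h4] at h3
    exact h3
  · apply int_bound M'' hM''
    refine le_trans ?_ hl
    have h3 := abs_im_le_norm (gl g i)
    have h4 : (gl g i).im = (((Multiplicative.toAdd g.2).2 i).2 : ℝ) := by simp [gl]
    rw [h4] at h3
    exact h3

theorem properly (hN : 0 < N) : ProperlyDiscontinuousSMul (G r) (W N r c) where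
  finite_disjoint_inter_image := by
    intro K L hK hL
    obtain ⟨R₁, h1, hR₁⟩ := norm_bound hK
    obtain ⟨R₂, h2, hR₂⟩ := norm_bound hL
    set R := max R₁ R₂ with hR
    have hR1 : R₁ ≤ R := le_max_left _ _
    have hR2 : R₂ ≤ R := le_max_right _ _
    have hR0 : 0 ≤ R := h1.trans hR1
    obtain ⟨M, hM⟩ := exists_nat_ge (max (2 * R / ls) (2 * R))
    obtain ⟨M', hM'⟩ := exists_nat_ge (R + A ^ M * R)
    obtain ⟨M'', hM''⟩ := exists_nat_ge (2 * R + M * ‖c‖)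
    have hfin : ((Icc (-(M : ℤ)) M ×ˢ ((Icc (-(M' : ℤ)) M' ×ˢ Icc (-(M' : ℤ)) M') ×ˢ
      (Icc (-(M' : ℤ)) M' ×ˢ Icc (-(M' : ℤ)) M'))) ×ˢ (Icc (-(M : ℤ)) M ×ˢ
      (univ.pi fun _ : Fin r => Icc (-(M'' : ℤ)) M'' ×ˢ Icc (-(M'' : ℤ)) M''))).Finite :=
      ((finite_Icc _ _).prod (((finite_Icc _ _).prod (finite_Icc _ _)).prod
        ((finite_Icc _ _).prod (finite_Icc _ _)))).prod ((finite_Icc _ _).prod
        (Set.Finite.pi fun _ => (finite_Icc _ _).prod (finite_Icc _ _)))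
    refine (hfin.preimage (f := gc) gc_injective.injOn).subset ?_
    rintro g ⟨_, ⟨y, hyK, rfl⟩, hyL⟩
    obtain ⟨a1, a2, a3, a4, a5⟩ := hR₁ y hyK
    obtain ⟨b1, b2, b3, b4, b5⟩ := hR₂ (g • y) hyL
    exact act_bound hN R hR0 M ((le_max_left _ _).trans hM) ((le_max_right _ _).trans hM) M' hM'
      M'' hM'' y g ⟨a1.trans hR1, a2.trans hR1, a3.trans hR1, a4.trans hR1,
        fun i => (a5 i).trans hR1⟩ ⟨b1.trans hR2, b2.trans hR2, b3.trans hR2, b4.trans hR2,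
        fun i => (b5 i).trans hR2⟩

end

end Pool.Agent.Y166.PS
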