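import Pool.Agent.Results.MP_c7085a_an.PointSep

/-! Connected coverings of the bidisk minus the real plane, with any number of sheets. -/

set_option autoImplicit false

open scoped Manifold ContDiff Topology
open Set Filter Complex

namespace Pool.Agent.Y166.PS

open Pool.Agent.Results.MP_c7085a_an.PointSep

section cover

variable {D : Type} [TopologicalSpace D] {p : D → Omega}

/-- Lifts of the projection of the simply connected covering that agree at one point are equal. -/
theorem lift_unique (hp : IsCoveringMap p) {g g' : T → D} (hg : Continuous g)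
    (hg' : Continuous g') (h : ∀ t, p (g t) = pT t) (h' : ∀ t, p (g' t) = pT t) (t₀ : T)
    (h0 : g t₀ = g' t₀) : g = g' :=
  hp.isSeparatedMap.eq_of_comp_eq hp.isLocalHomeomorph.isLocallyInjective hg hg'
    (by funext t; show p (g t) = p (g' t); rw [h, h']) t₀ h0

/-- There is a lift through every point. -/
theorem exists_lift_through (hp : IsCoveringMap p) (d : D) :
    ∃ g : C(T, D), (∀ t, p (g t) = pT t) ∧ ∃ t, g t = d := by
  obtain ⟨g, ⟨h0, hg⟩, -⟩ := hp.existsUnique_continuousMap_lifts pT (secT 0 (p d)) d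
    (by rw [pT_secT])
  exact ⟨g, fun t => congrFun hg t, _, h0⟩

/-- The range of a lift is open. -/
theorem range_open (hp : IsCoveringMap p) (g : C(T, D)) (hg : ∀ t, p (g t) = pT t) :
    IsOpen (range g) := by
  rw [isOpen_iff_mem_nhds]
  rintro _ ⟨t, rfl⟩
  have hpc : ContinuousAt p (g t) := hp.continuous.continuousAt
  have hsc : ContinuousAt (fun d' => secT t.1.2.2 (p d')) (g t) := by
    refine ContinuousAt.comp (g := secT t.1.2.2) ?_ hpc
    rw [hg]; exact secT_continuousAt t
  have hval : secT t.1.2.2 (p (g t)) = t := by rw [hg, secT_pT]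
  obtain ⟨U, hU, hdU, hinj⟩ := hp.isLocalHomeomorph.isLocallyInjective (g t)
  have h4 : ∀ᶠ d' in 𝓝 (g t), d' ∈ U := hU.mem_nhds hdU
  have h5 : ContinuousAt (fun d' => g (secT t.1.2.2 (p d'))) (g t) :=
    g.continuous.continuousAt.comp hsc
  have h6 : ∀ᶠ d' in 𝓝 (g t), g (secT t.1.2.2 (p d')) ∈ U := by
    apply h5.eventually_mem
    rw [hval]
    exact hU.mem_nhds hdU
  filter_upwards [h4, h6] with d' h7 h8
  refine ⟨secT t.1.2.2 (p d'), ?_⟩
  apply hinj h8 h7
  rw [hg, pT_secT]

/-- Two lifts with intersecting ranges differ by a deck transformation. -/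
theorem lift_range (hp : IsCoveringMap p) (g g' : C(T, D)) (hg : ∀ t, p (g t) = pT t)
    (hg' : ∀ t, p (g' t) = pT t) (t t' : T) (h : g t = g' t') : range g ⊆ range g' := by
  have h1 : pT t = pT t' := by rw [← hg, ← hg', h]
  obtain ⟨k, rfl⟩ := fibre t t' h1
  have h2 := lift_unique hp g.continuous (g'.continuous.comp (continuous_tauT k)) hg
    (fun t => by show p (g' (tauT k t)) = pT t; rw [hg', pT_tauT]) t h
  rintro _ ⟨s, rfl⟩
  exact ⟨tauT k s, (congrFun h2 s).symm⟩

variable [ConnectedSpace D]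

/-- Lifts to connected coverings are surjective. -/
theorem lift_surj' (hp : IsCoveringMap p) (g : C(T, D)) (hg : ∀ t, p (g t) = pT t) :
    range g = univ := by
  refine IsClopen.eq_univ ?_ ⟨g (Classical.arbitrary T), Classical.arbitrary T, rfl⟩
  refine ⟨⟨?_⟩, range_open hp g hg⟩
  rw [isOpen_iff_mem_nhds]
  intro d hd
  obtain ⟨g', hg', t', ht'⟩ := exists_lift_through hp d
  refine mem_of_superset ((range_open hp g' hg').mem_nhds ⟨t', ht'⟩) ?_
  rintro _ ⟨s, rfl⟩ ⟨s', hs'⟩
  exact hd (lift_range hp g' g hg' hg s s' hs'.symm ⟨t', ht'⟩)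

/-- The classification of the connected coverings. -/
theorem classify (hp : IsCoveringMap p) : ∃ (g : C(T, D)) (n : ℕ), (∀ t, p (g t) = pT t) ∧
    (∀ d, ∃ t, g t = d) ∧ (∀ t t', g t = g t' ↔ ∃ k : ℤ, t' = tauT (n * k) t) ∧
    ∀ z, (p ⁻¹' {z}).ncard = n := by
  obtain ⟨g, hg, -⟩ := exists_lift_through hp (Classical.arbitrary D)
  have hsurj : ∀ d, ∃ t, g t = d := by
    intro d
    have : d ∈ range g := by rw [lift_surj' hp g hg]; trivial
    exact this
  let H : AddSubgroup ℤ :=
    { carrier := {k | ∀ t, g (tauT k t) = g t}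
      zero_mem' := fun t => by rw [tauT_zero]
      add_mem' := fun {a b} ha hb t => by rw [tauT_add, ha, hb]
      neg_mem' := fun {a} ha t => by
        have h1 := ha (tauT (-a) t)
        rw [← tauT_add, add_neg_cancel, tauT_zero] at h1
        exact h1.symm }
  obtain ⟨a, ha⟩ := Int.subgroup_cyclic H
  have hH : ∀ k : ℤ, (∀ t, g (tauT k t) = g t) ↔ ∃ l : ℤ, k = (a.natAbs : ℤ) * l := by
    intro k
    have h1 : (∀ t, g (tauT k t) = g t) ↔ k ∈ H := Iff.rfl
    rw [h1, ha, AddSubgroup.mem_closure_singleton]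
    constructor
    · rintro ⟨n, rfl⟩
      rcases Int.natAbs_eq a with h | h
      · exact ⟨n, by rw [← h, smul_eq_mul, mul_comm]⟩
      · refine ⟨-n, ?_⟩
        rw [smul_eq_mul]
        nth_rewrite 1 [h]
        ring
    · rintro ⟨l, rfl⟩
      rcases Int.natAbs_eq a with h | h
      · exact ⟨l, by rw [← h, smul_eq_mul, mul_comm]⟩
      · refine ⟨-l, ?_⟩
        rw [smul_eq_mul]
        nth_rewrite 1 [h]
        ring
  have heq : ∀ t t', g t = g t' ↔ ∃ k : ℤ, t' = tauT (a.natAbs * k) t := by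
    intro t t'
    constructor
    · intro h
      have hpt : pT t = pT t' := by rw [← hg, ← hg, h]
      obtain ⟨k, rfl⟩ := fibre t t' hpt
      have h1 := lift_unique hp g.continuous (g.continuous.comp (continuous_tauT k)) hg
        (fun t => by show p (g (tauT k t)) = pT t; rw [hg, pT_tauT]) t h
      obtain ⟨l, hl⟩ := (hH k).1 fun s => (congrFun h1 s).symm
      exact ⟨l, by rw [hl]⟩
    · rintro ⟨k, rfl⟩
      exact ((hH _).2 ⟨k, rfl⟩ t).symm
  refine ⟨g, a.natAbs, hg, hsurj, heq, ?_⟩
  intro z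
  set n := a.natAbs with hn
  set t₀ := secT 0 z with ht₀
  have hz : pT t₀ = z := pT_secT 0 z
  have hfib : p ⁻¹' {z} = range fun k : ℤ => g (tauT k t₀) := by
    ext d
    constructor
    · intro hd
      obtain ⟨t, rfl⟩ := hsurj d
      have h1 : pT t₀ = pT t := by rw [hz, ← hg]; exact hd.symm
      obtain ⟨k, hk⟩ := fibre t₀ t h1
      exact ⟨k, by show g (tauT k t₀) = g t; rw [hk]⟩
    · rintro ⟨k, rfl⟩
      show p (g (tauT k t₀)) = z
      rw [hg, pT_tauT, hz]
  have hinj : ∀ k l : ℤ, g (tauT k t₀) = g (tauT l t₀) ↔ (n : ℤ) ∣ l - k := by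
    intro k l
    rw [heq]
    constructor
    · rintro ⟨j, hj⟩
      rw [← tauT_add] at hj
      have h1 := congrArg (fun t : T => t.1.2.2) hj
      have h2 : t₀.1.2.2 + l * (Real.pi * I) = t₀.1.2.2 + ((n * j + k : ℤ) : ℂ) * (Real.pi * I) :=
        h1
      have h3 : (l : ℂ) = ((n * j + k : ℤ) : ℂ) := by
        have h4 : ((l : ℂ) - ((n * j + k : ℤ) : ℂ)) * (Real.pi * I) = 0 := by
          linear_combination h2
        rcases mul_eq_zero.1 h4 with h5 | h5
        · exact sub_eq_zero.1 h5
        · exact absurd h5 (mul_ne_zero (by exact_mod_cast Real.pi_ne_zero) I_ne_zero)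
      have h6 : l = n * j + k := by exact_mod_cast h3
      exact ⟨j, by rw [h6]; ring⟩
    · rintro ⟨j, hj⟩
      refine ⟨j, ?_⟩
      rw [← tauT_add, ← hj]
      congr 1
      ring
  rw [hfib]
  rcases Nat.eq_zero_or_pos n with h0 | hpos
  · rw [h0]
    apply Set.Infinite.ncard
    apply Set.infinite_range_of_injective
    intro k l hkl
    have h1 := (hinj k l).1 hkl
    rw [h0] at h1
    have h2 := zero_dvd_iff.1 (by exact_mod_cast h1 : (0 : ℤ) ∣ l - k)
    omega
  · haveI : NeZero n := ⟨hpos.ne'⟩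
    have h1 : (range fun k : ℤ => g (tauT k t₀)) =
        (fun i : Fin n => g (tauT (i : ℤ) t₀)) '' univ := by
      ext d
      constructor
      · rintro ⟨k, rfl⟩
        have h2 : 0 ≤ k % n := Int.emod_nonneg _ (by exact_mod_cast hpos.ne')
        have h3 : k % n < n := Int.emod_lt_of_pos _ (by exact_mod_cast hpos)
        refine ⟨⟨(k % n).toNat, by omega⟩, mem_univ _, ?_⟩
        rw [hinj]
        have h4 : (((k % n).toNat : ℕ) : ℤ) = k % n := Int.toNat_of_nonneg h2
        change (n : ℤ) ∣ k - (((k % n).toNat : ℕ) : ℤ)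
        rw [h4]
        exact Int.dvd_self_sub_emod
      · rintro ⟨i, -, rfl⟩
        exact ⟨i, rfl⟩
    rw [h1, Set.ncard_image_of_injective, Set.ncard_univ, Nat.card_eq_fintype_card,
      Fintype.card_fin]
    intro i j hij
    have h2 := (hinj _ _).1 hij
    obtain ⟨c, hc⟩ := h2
    have h3 := i.2
    have h4 := j.2
    have h5 : c = 0 := by
      by_contra hne
      have h6 : (n : ℤ) ≤ |(j : ℤ) - (i : ℤ)| := by
        rw [hc, abs_mul, Nat.abs_cast]
        have : 1 ≤ |c| := Int.one_le_abs hne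
        nlinarith
      have h7 : |(j : ℤ) - (i : ℤ)| < n := by
        rw [abs_lt]
        constructor <;> omega
      omega
    rw [h5, mul_zero] at hc
    apply Fin.ext
    omega

end cover

end Pool.Agent.Y166.PS
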