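import Pool.Agent.Y166.PS.Man

/-! The embeddings of the coverings in the compact complex manifolds. -/

set_option autoImplicit false

open scoped Manifold ContDiff Topology
open Set Filter Complex

namespace Pool.Agent.Y166.PS

open Pool.Agent.Results.MP_c7085a_an.PointSep

section
variable {N r : ℕ} {c : ℂ}

/-- the section of the third coordinate -/
noncomputable def par' (N r : ℕ) (c c₀ : ℂ) (t : ℝ × ℝ × ℂ) : W N r c :=
  (t.1, t.2.1, t.2.2, c₀, fun _ => 0)

theorem continuous_par' (c₀ : ℂ) : Continuous (par' N r c c₀) := by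
  have h : Continuous (fun t : ℝ × ℝ × ℂ =>
      ((t.1, t.2.1, t.2.2, c₀, fun _ => 0) : ℝ × ℝ × ℂ × ℂ × (Fin r → ℂ))) := by fun_prop
  exact h

/-- the coordinates of the section -/
theorem dev_par (c₀ : ℂ) (t : ℝ × ℝ × ℂ) : devW (par' N r c c₀ t) =
    Fin.append ![zz t 0, zz t 1, c₀] (fun _ : Fin r => (0 : ℂ)) := by
  apply ext3
  · change lin _ (Fin.castAdd r 0) = _
    rw [lin_cast0, Fin.append_left]; rfl
  · change lin _ (Fin.castAdd r 1) = _
    rw [lin_cast1, Fin.append_left]; rfl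
  · change lin _ (Fin.castAdd r 2) = _
    rw [lin_cast2, Fin.append_left]; rfl
  · intro i
    change lin _ (Fin.natAdd 3 i) = _
    rw [lin_nat, Fin.append_right]; rfl

theorem contDiff_app (c₀ : ℂ) : ContDiff ℂ ω (fun z : Fin 2 → ℂ =>
    (Fin.append ![z 0, z 1, c₀] (fun _ : Fin r => (0 : ℂ)) : Fin (3 + r) → ℂ)) := by
  apply contDiff3
  · simp only [Fin.append_left]
    exact contDiff_apply ℂ ℂ (0 : Fin 2)
  · simp only [Fin.append_left]
    exact contDiff_apply ℂ ℂ (1 : Fin 2)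
  · simp only [Fin.append_left]
    exact contDiff_const
  · intro i
    simp only [Fin.append_right]
    exact contDiff_const

/-- The general embedding. -/
theorem exists_embed (hN : 0 < N) (n : ℕ)
    (ha : ∀ k : ℤ, ∃ g : G r, g.1 = 1 ∧ gj g * N = n * k ∧ ∀ i, (gj g : ℂ) * c + gl g i = 0)
    (hb : ∀ g : G r, (∀ i, (gj g : ℂ) * c + gl g i = 0) → ∃ k : ℤ, gj g * N = n * k)
    (D : Type) [TopologicalSpace D] [ChartedSpace (Fin 2 → ℂ) D]
    [IsManifold 𝓘(ℂ, Fin 2 → ℂ) ω D] [ConnectedSpace D] (p : D → Omega)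
    (hp : IsCoveringMap p)
    (hloc : IsLocalDiffeomorph 𝓘(ℂ, Fin 2 → ℂ) 𝓘(ℂ, Fin 2 → ℂ) ω (fun d => (p d : Fin 2 → ℂ)))
    (g : C(T, D)) (hg : ∀ t, p (g t) = pT t) (hsurj : ∀ d, ∃ t, g t = d)
    (heq : ∀ t t', g t = g t' ↔ ∃ k : ℤ, t' = tauT (n * k) t) :
    letI := XX_charted (N := N) (r := r) (c := c) hN
    ∃ f : D → XX N r c, ContMDiff 𝓘(ℂ, Fin 2 → ℂ) 𝓘(ℂ, Fin (3 + r) → ℂ) ω f ∧
      Function.Injective f := by
  letI := XX_charted (N := N) (r := r) (c := c) hN
  obtain ⟨c₀, hc₀⟩ := exists_good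
  choose ch hch using hsurj
  let f : D → XX N r c := fun d => qq (par' N r c c₀ (ch d).1)
  have hfg : ∀ t, f (g t) = qq (par' N r c c₀ t.1) := by
    intro t
    have h1 : g (ch (g t)) = g t := hch (g t)
    obtain ⟨k, hk⟩ := (heq _ _).mp h1
    obtain ⟨e, he1, he2, he3⟩ := ha k
    have key : ∀ s : T, t = tauT (n * k) s → e • par' N r c c₀ s.1 = par' N r c c₀ t.1 := by
      rintro s rfl
      rw [smul_def']
      unfold act par'
      rw [he1]
      simp only [one_k, one_l, one_m, zpow_zero, map_zero, one_mul, add_zero, Int.cast_zero,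
        zero_mul, ofReal_one, ofReal_zero, zero_add, he3]
      refine Prod.ext rfl (Prod.ext rfl (Prod.ext ?_ rfl))
      change _ = s.1.2.2 + ((n * k : ℤ) : ℂ) * (Real.pi * I)
      have h5 : ((gj e * N : ℤ) : ℂ) = ((n * k : ℤ) : ℂ) := by rw [he2]
      push_cast at h5 ⊢
      linear_combination (Real.pi * I) * h5
    have h2 := key _ hk
    show qq (par' N r c c₀ (ch (g t)).1) = _
    rw [← h2, qq_smul]
  refine ⟨f, ?_, ?_⟩
  · intro d
    obtain ⟨t, ht⟩ : ∃ t, g t = d := ⟨ch d, hch d⟩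
    have hpd : p d = pT t := by rw [← ht, hg]
    have hpc : ContinuousAt p d := hp.continuous.continuousAt
    have hsc : ContinuousAt (fun d' => secT t.1.2.2 (p d')) d := by
      refine ContinuousAt.comp (g := secT t.1.2.2) ?_ hpc
      rw [hpd]; exact secT_continuousAt t
    have hval : secT t.1.2.2 (p d) = t := by rw [hpd, secT_pT]
    refine contMDiffAt_quot devW devW_local qq (qq_local hN) sc' sc_qq trans' f d
      (fun d' => par' N r c c₀ (secT t.1.2.2 (p d')).1) ?_ ?_ ?_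
    · have h3 : Continuous (fun t : T => par' N r c c₀ t.1) :=
        (continuous_par' c₀).comp continuous_subtype_val
      exact h3.continuousAt.comp hsc
    · obtain ⟨U, hU, hdU, hinj⟩ := hp.isLocalHomeomorph.isLocallyInjective d
      have h4 : ∀ᶠ d' in 𝓝 d, d' ∈ U := hU.mem_nhds hdU
      have h5 : ContinuousAt (fun d' => g (secT t.1.2.2 (p d'))) d :=
        g.continuous.continuousAt.comp hsc
      have h6 : ∀ᶠ d' in 𝓝 d, g (secT t.1.2.2 (p d')) ∈ U := by
        apply h5.eventually_mem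
        rw [hval, ht]
        exact hU.mem_nhds hdU
      filter_upwards [h4, h6] with d' h7 h8
      have h9 : g (secT t.1.2.2 (p d')) = d' := by
        apply hinj h8 h7
        rw [hg, pT_secT]
      show f d' = qq (par' N r c c₀ (secT t.1.2.2 (p d')).1)
      rw [← hfg, h9]
    · have h3 : (fun d' => devW (par' N r c c₀ (secT t.1.2.2 (p d')).1)) =
          (fun z : Fin 2 → ℂ =>
            (Fin.append ![z 0, z 1, c₀] (fun _ : Fin r => (0 : ℂ)) : Fin (3 + r) → ℂ)) ∘
            (fun d => (p d : Fin 2 → ℂ)) := by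
        funext d'
        rw [dev_par]
        have h4 : zz (secT t.1.2.2 (p d')).1 = (p d' : Fin 2 → ℂ) :=
          congrArg Subtype.val (pT_secT t.1.2.2 (p d'))
        rw [h4]
        rfl
      rw [h3]
      exact (contDiff_app c₀).contMDiff.contMDiffAt.comp d hloc.contMDiff.contMDiffAt
  · intro d d' hdd
    obtain ⟨t, rfl⟩ : ∃ t, g t = d := ⟨ch d, hch d⟩
    obtain ⟨t', rfl⟩ : ∃ t', g t' = d' := ⟨ch d', hch d'⟩
    rw [hfg, hfg] at hdd
    obtain ⟨e, he⟩ := (qq_eq _ _).mp hdd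
    rw [smul_def'] at he
    have h1 : (act N c e (par' N r c c₀ t.1)).2.2.2.1 = c₀ := congrArg (fun y : W N r c => y.2.2.2.1) he
    have he1 : e.1 = 1 := hc₀ e.1 h1
    have h2 : ∀ i, (gj e : ℂ) * c + gl e i = 0 := by
      intro i
      have h3 : (act N c e (par' N r c c₀ t.1)).2.2.2.2 i = 0 :=
        congrArg (fun y : W N r c => y.2.2.2.2 i) he
      have h4 : (0 : ℂ) + ((gj e : ℂ) * c + gl e i) = 0 := h3
      rwa [zero_add] at h4
    obtain ⟨k, hk⟩ := hb e h2
    rw [heq]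
    refine ⟨k, ?_⟩
    apply Subtype.ext
    have h5 : (act N c e (par' N r c c₀ t.1)).1 = t'.1.1 := congrArg (fun y : W N r c => y.1) he
    have h6 : (act N c e (par' N r c c₀ t.1)).2.1 = t'.1.2.1 :=
      congrArg (fun y : W N r c => y.2.1) he
    have h7 : (act N c e (par' N r c c₀ t.1)).2.2.1 = t'.1.2.2 :=
      congrArg (fun y : W N r c => y.2.2.1) he
    simp only [act, par', he1, one_k, one_l, one_m, zpow_zero, map_zero, one_mul, add_zero,
      Int.cast_zero, zero_mul, zero_add] at h5 h6 h7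
    refine Prod.ext h5.symm (Prod.ext h6.symm ?_)
    change t'.1.2.2 = t.1.2.2 + ((n * k : ℤ) : ℂ) * (Real.pi * I)
    have h8 : ((gj e * N : ℤ) : ℂ) = ((n * k : ℤ) : ℂ) := by rw [hk]
    rw [← h7]
    push_cast at h8 ⊢
    linear_combination (Real.pi * I) * h8

end

end Pool.Agent.Y166.PS
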