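import Pool.Agent.Y166.PS.Emb

/-! Existence of the connected coverings of the bidisk minus the real plane. -/

set_option autoImplicit false

open scoped Manifold ContDiff Topology
open Set Filter Complex

namespace Pool.Agent.Y166.PS

open Pool.Agent.Results.MP_c7085a_an.PointSep

section pullback

variable {A B E : Type} [TopologicalSpace A] [TopologicalSpace B] [TopologicalSpace E]

/-- The pull-back of the map `q : E → B` along `f : A → B`. -/
abbrev Pb (f : A → B) (q : E → B) : Type := {x : A × E // f x.1 = q x.2}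

/-- the projection -/
def pb (f : A → B) (q : E → B) (x : Pb f q) : A := x.1.1

/-- Pull-backs of coverings are coverings. -/
theorem pb_covering {f : A → B} {q : E → B} (hf : Continuous f) (hq : IsCoveringMap q) :
    IsCoveringMap (pb f q) := by
  intro a₀
  obtain ⟨hI, U, hxU, hU, hqU, H, hH⟩ := hq (f a₀)
  refine IsEvenlyCovered.to_isEvenlyCovered_preimage (I := q ⁻¹' {f a₀}) ?_
  have hcont : Continuous (pb f q) := continuous_fst.comp continuous_subtype_val
  refine ⟨hI, f ⁻¹' U, hxU, hU.preimage hf, (hU.preimage hf).preimage hcont, ?_⟩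
  have hmem : ∀ x : pb f q ⁻¹' (f ⁻¹' U), x.1.1.2 ∈ q ⁻¹' U := by
    intro x
    have h1 : f x.1.1.1 ∈ U := x.2
    rwa [x.1.2] at h1
  have hsymm : ∀ (a : f ⁻¹' U) (i : q ⁻¹' {f a₀}),
      q (H.symm (⟨f a.1, a.2⟩, i)).1 = f a.1 := by
    intro a i
    have h1 := hH (H.symm (⟨f a.1, a.2⟩, i))
    rw [H.apply_symm_apply] at h1
    exact h1.symm
  refine ⟨
    { toFun := fun x => (⟨x.1.1.1, x.2⟩, (H ⟨x.1.1.2, hmem x⟩).2)
      invFun := fun y => ⟨⟨(y.1.1, (H.symm (⟨f y.1.1, y.1.2⟩, y.2)).1), (hsymm y.1 y.2).symm⟩,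
        y.1.2⟩
      left_inv := ?_
      right_inv := ?_
      continuous_toFun := ?_
      continuous_invFun := ?_ }, ?_⟩
  · rintro ⟨⟨⟨a, e⟩, hae⟩, ha⟩
    apply Subtype.ext
    apply Subtype.ext
    refine Prod.ext rfl ?_
    have he : e ∈ q ⁻¹' U := hmem ⟨⟨⟨a, e⟩, hae⟩, ha⟩
    have h1 : ((⟨f a, ha⟩, (H ⟨e, he⟩).2) : U × q ⁻¹' {f a₀}) = H ⟨e, he⟩ := by
      refine Prod.ext ?_ rfl
      apply Subtype.ext
      rw [hH]
      exact hae
    change (H.symm (⟨f a, ha⟩, (H ⟨e, he⟩).2)).1 = e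
    rw [h1, H.symm_apply_apply]
  · rintro ⟨⟨a, ha⟩, i⟩
    refine Prod.ext rfl ?_
    change (H ⟨(H.symm (⟨f a, ha⟩, i)).1, _⟩).2 = i
    have h1 : (⟨(H.symm (⟨f a, ha⟩, i)).1, (H.symm (⟨f a, ha⟩, i)).2⟩ : q ⁻¹' U) =
      H.symm (⟨f a, ha⟩, i) := rfl
    rw [h1, H.apply_symm_apply]
  · fun_prop
  · fun_prop
  · intro x
    rfl

end pullback

/-- `D` is a connected covering of the bidisk minus the real plane with the projection `p`, with
the complex structure pulled back by `p`. -/
structure IsCover (D : Type) [TopologicalSpace D] [ChartedSpace (Fin 2 → ℂ) D]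
    (p : D → Omega) : Prop where
  manifold : IsManifold 𝓘(ℂ, Fin 2 → ℂ) ω D
  connected : ConnectedSpace D
  covering : IsCoveringMap p
  diffeo : IsLocalDiffeomorph 𝓘(ℂ, Fin 2 → ℂ) 𝓘(ℂ, Fin 2 → ℂ) ω (fun d => (p d : Fin 2 → ℂ))

theorem etale_diffeo {E : Type*} [NormedAddCommGroup E] [NormedSpace ℂ E]
    {Y : Type*} [TopologicalSpace Y] (π : Y → E) (h : IsLocalHomeomorph π) :
    @IsLocalDiffeomorph ℂ _ E _ _ E _ _ E _ E _ 𝓘(ℂ, E) 𝓘(ℂ, E) Y _ (etale π h) E _ _ ω π := by
  let _ := etale π h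
  have hM : IsManifold 𝓘(ℂ, E) ω Y := etale_isManifold π h
  intro y
  let c : OpenPartialHomeomorph Y E := chartAt E y
  have hc : (c : Y → E) = π := chart_coe π h y
  refine ⟨⟨c.toPartialEquiv, c.open_source, c.open_target, contMDiffOn_chart,
    contMDiffOn_chart_symm⟩, mem_chart_source _ y, ?_⟩
  intro y' _
  show π y' = c y'
  rw [hc]

/-- the imaginary parts -/
noncomputable def dlΩ (z : Omega) : {z : ℂ // z ≠ 0} := ⟨dl z.1, dl_ne z⟩

theorem continuous_dlΩ : Continuous dlΩ :=
  (continuous_dl.comp continuous_subtype_val).subtype_mk _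

/-- The coverings of the bidisk minus the real plane that are the pull-backs of connected
coverings of the punctured plane. -/
theorem exists_cover_of {E : Type} [TopologicalSpace E] (q : E → {z : ℂ // z ≠ 0})
    (hq : IsCoveringMap q) (φ : ℂ → E) (hφ : Continuous φ)
    (hφq : ∀ w, (q (φ w)).1 = exp (2 * w)) (hs : Function.Surjective φ) :
    ∃ (D : Type) (_ : TopologicalSpace D) (_ : ChartedSpace (Fin 2 → ℂ) D) (p : D → Omega),
      IsCover D p ∧ ∀ z : Omega, Nonempty (p ⁻¹' {z} ≃ q ⁻¹' {dlΩ z}) := by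
  have hcov : IsCoveringMap (pb dlΩ q) := pb_covering continuous_dlΩ hq
  have hπ : IsLocalHomeomorph (fun y : Pb dlΩ q => ((pb dlΩ q y : Omega) : Fin 2 → ℂ)) :=
    (isOpen_Omega.isOpenEmbedding_subtypeVal.isLocalHomeomorph).comp hcov.isLocalHomeomorph
  refine ⟨Pb dlΩ q, inferInstance, etale _ hπ, pb dlΩ q, ?_, ?_⟩
  · let _ := etale _ hπ
    refine ⟨etale_isManifold _ hπ, ?_, hcov, etale_diffeo _ hπ⟩
    let ψ : T → Pb dlΩ q := fun t => ⟨(pT t, φ t.1.2.2), by
      apply Subtype.ext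
      change dl (zz t.1) = _
      rw [dl_zz, hφq]⟩
    have hψ : Continuous ψ := by
      refine Continuous.subtype_mk ?_ _
      exact pT.continuous.prodMk (hφ.comp
        (continuous_snd.comp (continuous_snd.comp continuous_subtype_val)))
    have hsurj : Function.Surjective ψ := by
      rintro ⟨⟨z, e⟩, hze⟩
      obtain ⟨w, rfl⟩ := hs e
      have he : exp (2 * w) = dl z.1 := by
        rw [← hφq, ← show dlΩ z = q (φ w) from hze]; rfl
      have hz : zz ((z.1 0).re, (z.1 1).re, w) = z.1 := by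
        ext i
        fin_cases i
        · show zz _ 0 = z.1 0
          apply Complex.ext
          · rw [zz_zero_re]
          · rw [zz_zero_im]
            show (exp (2 * w)).re = _
            rw [he]; simp [dl]
        · show zz _ 1 = z.1 1
          apply Complex.ext
          · rw [zz_one_re]
          · rw [zz_one_im]
            show (exp (2 * w)).im = _
            rw [he]; simp [dl]
      refine ⟨⟨((z.1 0).re, (z.1 1).re, w), by rw [hz]; exact z.2⟩, ?_⟩
      apply Subtype.ext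
      apply Prod.ext
      · apply Subtype.ext
        exact hz
      · rfl
    exact hsurj.connectedSpace hψ
  · intro z
    refine ⟨
      { toFun := fun y => ⟨y.1.1.2, by
          have h1 : y.1.1.1 = z := y.2
          have h2 := y.1.2
          rw [h1] at h2
          exact h2.symm⟩
        invFun := fun e => ⟨⟨(z, e.1), e.2.symm⟩, rfl⟩
        left_inv := ?_
        right_inv := fun e => rfl }⟩
    rintro ⟨⟨⟨z', e⟩, h⟩, h'⟩
    have h1 : z' = z := h'
    subst h1
    rfl

/-- The covering with infinitely many sheets. -/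
theorem exists_infinite :
    ∃ (D : Type) (_ : TopologicalSpace D) (_ : ChartedSpace (Fin 2 → ℂ) D) (p : D → Omega),
      IsCover D p ∧ ∀ z : Omega, (p ⁻¹' {z}).Infinite := by
  have hq : IsCoveringMap fun w : ℂ => (⟨_, (2 * w).exp_ne_zero⟩ : {z : ℂ // z ≠ 0}) :=
    Complex.isCoveringMap_exp.comp_homeomorph (Homeomorph.mulLeft₀ (2 : ℂ) two_ne_zero)
  obtain ⟨D, i1, i2, p, h1, h2⟩ := exists_cover_of _ hq id continuous_id (fun w => rfl)
    Function.surjective_id
  refine ⟨D, i1, i2, p, h1, fun z => ?_⟩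
  obtain ⟨e⟩ := h2 z
  rw [← Set.infinite_coe_iff]
  have : Infinite ((fun w : ℂ => (⟨_, (2 * w).exp_ne_zero⟩ : {z : ℂ // z ≠ 0})) ⁻¹' {dlΩ z}) := by
    refine Infinite.of_injective
      (fun k : ℤ => ⟨log (dl z.1) / 2 + k * (Real.pi * I), ?_⟩) ?_
    · apply Subtype.ext
      change exp (2 * (log (dl z.1) / 2 + k * (Real.pi * I))) = dl z.1
      rw [mul_add, exp_add, mul_div_cancel₀ _ (two_ne_zero' ℂ), exp_log (dl_ne z)]
      have : exp (2 * (k * (Real.pi * I))) = 1 := by
        rw [exp_eq_one_iff]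
        exact ⟨k, by ring⟩
      rw [this, mul_one]
    · intro k l hkl
      have h3 := congrArg Subtype.val hkl
      have h4 : ((k : ℂ) - l) * (Real.pi * I) = 0 := by linear_combination h3
      rcases mul_eq_zero.1 h4 with h5 | h5
      · exact_mod_cast sub_eq_zero.1 h5
      · exact absurd h5 (mul_ne_zero (by exact_mod_cast Real.pi_ne_zero) I_ne_zero)
  exact Infinite.of_injective _ e.symm.injective

/-- The coverings with finitely many sheets. -/
theorem exists_finite (n : ℕ) (hn : 0 < n) :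
    ∃ (D : Type) (_ : TopologicalSpace D) (_ : ChartedSpace (Fin 2 → ℂ) D) (p : D → Omega),
      IsCover D p ∧ ∀ z : Omega, (p ⁻¹' {z}).ncard = n := by
  have hn' : (n : ℂ) ≠ 0 := by exact_mod_cast hn.ne'
  have hq := isCoveringMap_npow (𝕜 := ℂ) n hn'
  obtain ⟨D, i1, i2, p, h1, h2⟩ := exists_cover_of _ hq
    (fun w => (⟨exp (2 * w / n), exp_ne_zero _⟩ : {z : ℂ // z ≠ 0}))
    (Continuous.subtype_mk (by fun_prop) _) (fun w => by
      change exp (2 * w / n) ^ n = _
      rw [← exp_nat_mul, mul_div_cancel₀ _ hn']) (by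
      rintro ⟨v, hv⟩
      refine ⟨n * log v / 2, ?_⟩
      apply Subtype.ext
      change exp (2 * (n * log v / 2) / n) = v
      have : 2 * (n * log v / 2) / n = log v := by field_simp
      rw [this, exp_log hv])
  refine ⟨D, i1, i2, p, h1, fun z => ?_⟩
  obtain ⟨e⟩ := h2 z
  rw [show (p ⁻¹' {z}).ncard = Nat.card (p ⁻¹' {z}) from rfl, Nat.card_congr e]
  set S : Finset ℂ := (Polynomial.nthRoots n (dl z.1)).toFinset with hS
  have hζ := Complex.isPrimitiveRoot_exp n hn.ne'
  have hnd := hζ.nthRoots_nodup (dl_ne z)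
  have hcard : S.card = n := by
    rw [hS, Multiset.toFinset_card_of_nodup hnd, hζ.card_nthRoots, if_pos]
    refine ⟨exp (log (dl z.1) / n), ?_⟩
    rw [← exp_nat_mul, mul_div_cancel₀ _ hn', exp_log (dl_ne z)]
  have hmem : ∀ v : ℂ, v ∈ S ↔ v ^ n = dl z.1 := by
    intro v
    rw [hS, Multiset.mem_toFinset, Polynomial.mem_nthRoots hn]
  have hS2 : Nat.card S = n := by rw [Nat.card_eq_fintype_card, Fintype.card_coe, hcard]
  refine Eq.trans ?_ hS2
  refine Nat.card_congr
    { toFun := fun v => ⟨v.1.1, (hmem _).2 (congrArg Subtype.val v.2)⟩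
      invFun := fun v => ⟨⟨v.1, ?_⟩, ?_⟩
      left_inv := fun v => rfl
      right_inv := fun v => rfl }
  · intro h0
    have h3 := (hmem _).1 v.2
    rw [h0, zero_pow hn.ne'] at h3
    exact dl_ne z h3.symm
  · apply Subtype.ext
    exact (hmem _).1 v.2

end Pool.Agent.Y166.PS
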