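import Pool.Agent.Y166.PS.Act

/-! The compact complex manifolds. -/

set_option autoImplicit false

open scoped Manifold ContDiff Topology
open Set Filter Complex

namespace Pool.Agent.Y166.PS

open Pool.Agent.Results.MP_c7085a_an.PointSep

/-! ### The developing map -/

/-- `v ↦ exp (2 v)` is a local homeomorphism. -/
theorem exp2_local : IsLocalHomeomorph fun v : ℂ => exp (2 * v) := by
  have h1 : IsLocalHomeomorph fun z : ℂ => (⟨_, z.exp_ne_zero⟩ : {z : ℂ // z ≠ 0}) :=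
    Complex.isCoveringMap_exp.isLocalHomeomorph
  have h2 : IsLocalHomeomorph (Subtype.val : {z : ℂ // z ≠ 0} → ℂ) :=
    (isOpen_ne.isOpenEmbedding_subtypeVal).isLocalHomeomorph
  have h3 : IsLocalHomeomorph fun v : ℂ => 2 * v :=
    (Homeomorph.mulLeft₀ (2 : ℂ) two_ne_zero).isLocalHomeomorph
  exact (h2.comp h1).comp h3

section
variable {r : ℕ}

/-- the linear homeomorphism onto the complex vector space -/
noncomputable def lin (y : ℝ × ℝ × ℂ × ℂ × (Fin r → ℂ)) : Fin (3 + r) → ℂ :=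
  Fin.append ![(y.1 : ℂ) + (y.2.2.1.re : ℂ) * I, (y.2.1 : ℂ) + (y.2.2.1.im : ℂ) * I, y.2.2.2.1]
    y.2.2.2.2

/-- its inverse -/
noncomputable def linInv (e : Fin (3 + r) → ℂ) : ℝ × ℝ × ℂ × ℂ × (Fin r → ℂ) :=
  ((e (Fin.castAdd r 0)).re, (e (Fin.castAdd r 1)).re,
    ((e (Fin.castAdd r 0)).im : ℂ) + ((e (Fin.castAdd r 1)).im : ℂ) * I, e (Fin.castAdd r 2),
    fun i => e (Fin.natAdd 3 i))

theorem lin_cast0 (y : ℝ × ℝ × ℂ × ℂ × (Fin r → ℂ)) :
    lin y (Fin.castAdd r 0) = (y.1 : ℂ) + (y.2.2.1.re : ℂ) * I := by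
  unfold lin; rw [Fin.append_left]; rfl
theorem lin_cast1 (y : ℝ × ℝ × ℂ × ℂ × (Fin r → ℂ)) :
    lin y (Fin.castAdd r 1) = (y.2.1 : ℂ) + (y.2.2.1.im : ℂ) * I := by
  unfold lin; rw [Fin.append_left]; rfl
theorem lin_cast2 (y : ℝ × ℝ × ℂ × ℂ × (Fin r → ℂ)) :
    lin y (Fin.castAdd r 2) = y.2.2.2.1 := by
  unfold lin; rw [Fin.append_left]; rfl
theorem lin_nat (y : ℝ × ℝ × ℂ × ℂ × (Fin r → ℂ)) (i : Fin r) :
    lin y (Fin.natAdd 3 i) = y.2.2.2.2 i := by
  unfold lin; rw [Fin.append_right]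

/-- equality of vectors -/
theorem ext3 {e e' : Fin (3 + r) → ℂ} (h0 : e (Fin.castAdd r 0) = e' (Fin.castAdd r 0))
    (h1 : e (Fin.castAdd r 1) = e' (Fin.castAdd r 1))
    (h2 : e (Fin.castAdd r 2) = e' (Fin.castAdd r 2))
    (h3 : ∀ i, e (Fin.natAdd 3 i) = e' (Fin.natAdd 3 i)) : e = e' := by
  funext i
  refine Fin.addCases (fun j => ?_) (fun j => h3 j) i
  fin_cases j
  · exact h0
  · exact h1
  · exact h2

theorem continuous3 {X : Type} [TopologicalSpace X] {f : X → Fin (3 + r) → ℂ}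
    (h0 : Continuous fun x => f x (Fin.castAdd r 0))
    (h1 : Continuous fun x => f x (Fin.castAdd r 1))
    (h2 : Continuous fun x => f x (Fin.castAdd r 2))
    (h3 : ∀ i, Continuous fun x => f x (Fin.natAdd 3 i)) : Continuous f := by
  apply continuous_pi
  intro i
  refine Fin.addCases (fun j => ?_) (fun j => h3 j) i
  fin_cases j
  · exact h0
  · exact h1
  · exact h2

theorem contDiff3 {E : Type} [NormedAddCommGroup E] [NormedSpace ℂ E] {f : E → Fin (3 + r) → ℂ}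
    (h0 : ContDiff ℂ ω fun x => f x (Fin.castAdd r 0))
    (h1 : ContDiff ℂ ω fun x => f x (Fin.castAdd r 1))
    (h2 : ContDiff ℂ ω fun x => f x (Fin.castAdd r 2))
    (h3 : ∀ i, ContDiff ℂ ω fun x => f x (Fin.natAdd 3 i)) : ContDiff ℂ ω f := by
  rw [contDiff_pi]
  intro i
  refine Fin.addCases (fun j => ?_) (fun j => h3 j) i
  fin_cases j
  · exact h0
  · exact h1
  · exact h2

/-- The homeomorphism. -/
noncomputable def linHomeo : (ℝ × ℝ × ℂ × ℂ × (Fin r → ℂ)) ≃ₜ (Fin (3 + r) → ℂ) where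
  toFun := lin
  invFun := linInv
  left_inv y := by
    obtain ⟨a, b, v, e, t⟩ := y
    unfold linInv
    rw [lin_cast0, lin_cast1, lin_cast2]
    simp only [lin_nat]
    refine Prod.ext ?_ (Prod.ext ?_ (Prod.ext ?_ (Prod.ext rfl rfl)))
    · simp
    · simp
    · simp
  right_inv e := by
    apply ext3
    · rw [lin_cast0]
      simp [linInv, re_add_im]
    · rw [lin_cast1]
      simp [linInv, re_add_im]
    · rw [lin_cast2]; rfl
    · intro i
      rw [lin_nat]; rfl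
  continuous_toFun := by
    apply continuous3
    · simp only [lin_cast0]; fun_prop
    · simp only [lin_cast1]; fun_prop
    · simp only [lin_cast2]; fun_prop
    · intro i
      simp only [lin_nat]; fun_prop
  continuous_invFun := by
    unfold linInv
    fun_prop

/-- the exponential in the third coordinate -/
noncomputable def ex (y : ℝ × ℝ × ℂ × ℂ × (Fin r → ℂ)) : ℝ × ℝ × ℂ × ℂ × (Fin r → ℂ) :=
  (y.1, y.2.1, exp (2 * y.2.2.1), y.2.2.2)

theorem ex_local : IsLocalHomeomorph (ex (r := r)) := by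
  apply IsLocalHomeomorph.mk
  intro y
  obtain ⟨e, he, he'⟩ := exp2_local y.2.2.1
  refine ⟨(OpenPartialHomeomorph.refl ℝ).prod ((OpenPartialHomeomorph.refl ℝ).prod
    (e.prod (OpenPartialHomeomorph.refl (ℂ × (Fin r → ℂ))))), ?_, ?_⟩
  · simp [he]
  · intro z _
    have h1 : e z.2.2.1 = exp (2 * z.2.2.1) := (congrFun he' _).symm
    refine Prod.ext rfl (Prod.ext rfl (Prod.ext ?_ rfl))
    exact h1.symm

variable {N : ℕ} {c : ℂ}

/-- The developing map. -/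
noncomputable def devW (y : W N r c) : Fin (3 + r) → ℂ := lin (ex y)

theorem devW_local : IsLocalHomeomorph (devW (N := N) (r := r) (c := c)) :=
  (linHomeo (r := r)).isLocalHomeomorph.comp ex_local

/-- The affine maps. -/
noncomputable def Aff (g : G r) (c : ℂ) (e : Fin (3 + r) → ℂ) : Fin (3 + r) → ℂ :=
  Fin.append ![((A ^ g.1.k : ℝ) : ℂ) * e (Fin.castAdd r 0) + (s1 g.1.l : ℂ),
    ((A ^ g.1.k : ℝ) : ℂ) * e (Fin.castAdd r 1) + (s1 g.1.m : ℂ),
    ((B ^ g.1.k : ℝ) : ℂ) * e (Fin.castAdd r 2) + ((s2 g.1.l : ℂ) + (s2 g.1.m : ℂ) * I)]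
    (fun i => e (Fin.natAdd 3 i) + ((gj g : ℂ) * c + gl g i))

theorem Aff0 (g : G r) (e : Fin (3 + r) → ℂ) : Aff g c e (Fin.castAdd r 0) =
    ((A ^ g.1.k : ℝ) : ℂ) * e (Fin.castAdd r 0) + (s1 g.1.l : ℂ) := by
  unfold Aff; rw [Fin.append_left]; rfl
theorem Aff1 (g : G r) (e : Fin (3 + r) → ℂ) : Aff g c e (Fin.castAdd r 1) =
    ((A ^ g.1.k : ℝ) : ℂ) * e (Fin.castAdd r 1) + (s1 g.1.m : ℂ) := by
  unfold Aff; rw [Fin.append_left]; rfl
theorem Aff2 (g : G r) (e : Fin (3 + r) → ℂ) : Aff g c e (Fin.castAdd r 2) =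
    ((B ^ g.1.k : ℝ) : ℂ) * e (Fin.castAdd r 2) + ((s2 g.1.l : ℂ) + (s2 g.1.m : ℂ) * I) := by
  unfold Aff; rw [Fin.append_left]; rfl
theorem Aff3 (g : G r) (e : Fin (3 + r) → ℂ) (i : Fin r) : Aff g c e (Fin.natAdd 3 i) =
    e (Fin.natAdd 3 i) + ((gj g : ℂ) * c + gl g i) := by
  unfold Aff; rw [Fin.append_right]

theorem exp_shift (N : ℕ) (k j : ℤ) (w : ℂ) :
    exp (2 * (w + ((k : ℂ) * (ls : ℂ) + (j : ℂ) * (N * (Real.pi * I))))) =
      ((A ^ k : ℝ) : ℂ) * exp (2 * w) := by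
  have h1 : 2 * (w + ((k : ℂ) * (ls : ℂ) + (j : ℂ) * (N * (Real.pi * I)))) =
      ((k * (2 * ls) : ℝ) : ℂ) + (2 * w + ((j * N : ℤ) : ℂ) * (2 * Real.pi * I)) := by
    push_cast; ring
  rw [h1, exp_add, exp_periodic.int_mul, ← ofReal_exp]
  congr 2
  rw [← s_zpow_sq, mul_comm (k : ℝ), mul_assoc]
  have h2 : Real.exp (ls * k) = s ^ k := by
    rw [← Real.rpow_intCast, ls, ← Real.rpow_def_of_pos s_pos]
  rw [mul_comm 2, Real.exp_mul, h2]
  norm_num

theorem dev_act (g : G r) (y : W N r c) : devW (g • y) = Aff g c (devW y) := by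
  have e1 : (ex (g • y) : ℝ × ℝ × ℂ × ℂ × (Fin r → ℂ)).2.2.1 =
      ((A ^ g.1.k : ℝ) : ℂ) * exp (2 * y.2.2.1) := exp_shift N g.1.k (gj g) y.2.2.1
  apply ext3
  · rw [Aff0]
    change lin (ex (g • y)) _ = _ * lin (ex y) _ + _
    rw [lin_cast0, lin_cast0, e1]
    change ((A ^ g.1.k * y.1 + s1 g.1.l : ℝ) : ℂ) + _ = _ * ((y.1 : ℂ) + _) + _
    rw [re_ofReal_mul]
    push_cast
    change _ = _ * (_ + ((exp (2 * y.2.2.1)).re : ℂ) * I) + _
    ring
  · rw [Aff1]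
    change lin (ex (g • y)) _ = _ * lin (ex y) _ + _
    rw [lin_cast1, lin_cast1, e1]
    change ((A ^ g.1.k * y.2.1 + s1 g.1.m : ℝ) : ℂ) + _ = _ * ((y.2.1 : ℂ) + _) + _
    rw [im_ofReal_mul]
    push_cast
    change _ = _ * (_ + ((exp (2 * y.2.2.1)).im : ℂ) * I) + _
    ring
  · rw [Aff2]
    change lin (ex (g • y)) _ = _ * lin (ex y) _ + _
    rw [lin_cast2, lin_cast2]
    rfl
  · intro i
    rw [Aff3]
    change lin (ex (g • y)) _ = lin (ex y) _ + _
    rw [lin_nat, lin_nat]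
    rfl

theorem contDiff_Aff (g : G r) : ContDiff ℂ ω (Aff g c) := by
  apply contDiff3
  · simp only [Aff0]; fun_prop
  · simp only [Aff1]; fun_prop
  · simp only [Aff2]; fun_prop
  · intro i
    simp only [Aff3]; fun_prop

/-! ### The quotient -/

/-- The compact manifold. -/
def XX (N r : ℕ) (c : ℂ) : Type := MulAction.orbitRel.Quotient (G r) (W N r c)

noncomputable instance : TopologicalSpace (XX N r c) :=
  inferInstanceAs (TopologicalSpace (Quotient (MulAction.orbitRel (G r) (W N r c))))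

/-- the quotient map -/
noncomputable def qq : W N r c → XX N r c := Quotient.mk (MulAction.orbitRel (G r) (W N r c))

theorem qq_surj : Function.Surjective (qq (N := N) (r := r) (c := c)) := Quotient.mk_surjective

theorem qq_eq (y₁ y₂ : W N r c) : qq y₁ = qq y₂ ↔ ∃ g : G r, g • y₁ = y₂ := by
  rw [eq_comm]
  exact Quotient.eq (r := MulAction.orbitRel (G r) (W N r c))

theorem qq_smul (g : G r) (y : W N r c) : qq (g • y) = qq y := by
  rw [eq_comm, qq_eq]; exact ⟨g, rfl⟩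

theorem cancel (hN : 0 < N) : IsCancelSMul (G r) (W N r c) := by
  rw [isCancelSMul_iff_eq_one_of_smul_eq]
  intro g y h
  exact eq_one_of_fix hN g y h

theorem qq_local (hN : 0 < N) : IsLocalHomeomorph (qq (N := N) (r := r) (c := c)) := by
  haveI := properly (r := r) (c := c) hN
  haveI := cancel (r := r) (c := c) hN
  have h : IsQuotientCoveringMap (qq (N := N) (r := r) (c := c)) (G r) :=
    isQuotientCoveringMap_quotientMk_of_properlyDiscontinuousSMul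
  exact h.isCoveringMap.isLocalHomeomorph

theorem XX_t2 (hN : 0 < N) : T2Space (XX N r c) := by
  haveI := properly (r := r) (c := c) hN
  exact inferInstanceAs (T2Space (Quotient (MulAction.orbitRel (G r) (W N r c))))

theorem XX_conn : ConnectedSpace (XX N r c) :=
  inferInstanceAs (ConnectedSpace (Quotient (MulAction.orbitRel (G r) (W N r c))))

/-- a section of the quotient map -/
noncomputable def sc' : XX N r c → W N r c := Function.surjInv qq_surj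

theorem sc_qq : Function.RightInverse (sc' (N := N) (r := r) (c := c)) qq :=
  Function.rightInverse_surjInv qq_surj

theorem trans' (y₁ y₂ : W N r c) (h : qq y₁ = qq y₂) :
    ∃ (t : W N r c → W N r c) (B : (Fin (3 + r) → ℂ) → (Fin (3 + r) → ℂ)),
      Continuous t ∧ t y₁ = y₂ ∧ (∀ y, qq (t y) = qq y) ∧ (∀ y, devW (t y) = B (devW y)) ∧
        ContDiff ℂ ω B := by
  obtain ⟨g, hg⟩ := (qq_eq y₁ y₂).mp h
  exact ⟨fun y => g • y, Aff g c, continuous_const_smul g, hg, fun y => qq_smul g y,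
    fun y => dev_act g y, contDiff_Aff g⟩

/-- The charts. -/
@[reducible] noncomputable def XX_charted (hN : 0 < N) :
    ChartedSpace (Fin (3 + r) → ℂ) (XX N r c) :=
  quotCharted devW devW_local qq (qq_local hN) sc' sc_qq

theorem XX_manifold (hN : 0 < N) :
    @IsManifold ℂ _ (Fin (3 + r) → ℂ) _ _ (Fin (3 + r) → ℂ) _ 𝓘(ℂ, Fin (3 + r) → ℂ) ω (XX N r c) _
      (XX_charted hN) :=
  isManifold_quot devW devW_local qq (qq_local hN) sc' sc_qq trans'

/-- A compact set meeting all orbits. -/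
def KK (N r : ℕ) (c : ℂ) : Set (W N r c) :=
  Icc (-2) 2 ×ˢ (Icc (-2) 2 ×ˢ ((Icc 0 ls ×ℂ Icc 0 (N * Real.pi)) ×ˢ
    ((Icc (-2) 2 ×ℂ Icc (-2) 2) ×ˢ (univ.pi fun _ : Fin r => (Icc (-1) 1 ×ℂ Icc (-1) 1)))))

theorem KK_compact : IsCompact (KK N r c) := by
  have h1 : ∀ a b c' d : ℝ, IsCompact (Icc a b ×ℂ Icc c' d) := fun a b c' d =>
    isCompact_Icc.reProdIm isCompact_Icc
  exact isCompact_Icc.prod (isCompact_Icc.prod ((h1 _ _ _ _).prod ((h1 _ _ _ _).prod
    (isCompact_univ_pi fun _ => h1 _ _ _ _))))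

theorem KK_orbit (hN : 0 < N) (y : W N r c) : ∃ g : G r, g • y ∈ KK N r c := by
  have hNp : 0 < (N : ℝ) * Real.pi := mul_pos (by exact_mod_cast hN) Real.pi_pos
  -- the shifts
  obtain ⟨k, hk⟩ : ∃ k : ℤ, y.2.2.1.re + k * ls ∈ Ico 0 ls := by
    obtain ⟨k, hk, -⟩ := existsUnique_add_zsmul_mem_Ico ls_pos y.2.2.1.re 0
    refine ⟨k, ?_⟩
    simpa using hk
  obtain ⟨j, hj⟩ : ∃ j : ℤ, y.2.2.1.im + j * (N * Real.pi) ∈ Ico 0 (N * Real.pi) := by
    obtain ⟨k, hk, -⟩ := existsUnique_add_zsmul_mem_Ico hNp y.2.2.1.im 0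
    refine ⟨k, ?_⟩
    simpa using hk
  obtain ⟨l, hl1, hl2⟩ := reduce (A ^ k * y.1) (B ^ k * y.2.2.2.1.re)
  obtain ⟨m, hm1, hm2⟩ := reduce (A ^ k * y.2.1) (B ^ k * y.2.2.2.1.im)
  have hL : ∀ i : Fin r, ∃ a b : ℤ, |(y.2.2.2.2 i + (j : ℂ) * c).re + a| ≤ 1 ∧
      |(y.2.2.2.2 i + (j : ℂ) * c).im + b| ≤ 1 := by
    intro i
    have h1 : ∀ u : ℝ, ∃ a : ℤ, |u + a| ≤ 1 := by
      intro u
      refine ⟨-round u, ?_⟩
      have := abs_sub_round u
      push_cast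
      rw [← sub_eq_add_neg]
      linarith
    obtain ⟨a, ha⟩ := h1 (y.2.2.2.2 i + (j : ℂ) * c).re
    obtain ⟨b, hb⟩ := h1 (y.2.2.2.2 i + (j : ℂ) * c).im
    exact ⟨a, b, ha, hb⟩
  choose a b hab hab' using hL
  let g : G r := (⟨k, l, m⟩, Multiplicative.ofAdd (j, fun i => (a i, b i)))
  refine ⟨g, ?_⟩
  refine ⟨?_, ?_, ⟨?_, ?_⟩, ⟨?_, ?_⟩, fun i _ => ⟨?_, ?_⟩⟩
  · exact abs_le.1 hl1
  · exact abs_le.1 hm1
  · have e : (g • y).2.2.1.re = y.2.2.1.re + k * ls := by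
      change (y.2.2.1 + ((k : ℂ) * (ls : ℂ) + (j : ℂ) * (N * (Real.pi * I)))).re = _
      rw [add_re, re_shift]
    show (g • y).2.2.1.re ∈ Icc 0 ls
    rw [e]
    exact ⟨hk.1, hk.2.le⟩
  · have e : (g • y).2.2.1.im = y.2.2.1.im + j * (N * Real.pi) := by
      change (y.2.2.1 + ((k : ℂ) * (ls : ℂ) + (j : ℂ) * (N * (Real.pi * I)))).im = _
      rw [add_im, im_shift]; ring
    show (g • y).2.2.1.im ∈ Icc 0 (N * Real.pi)
    rw [e]
    exact ⟨hj.1, hj.2.le⟩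
  · have e : (g • y).2.2.2.1.re = B ^ k * y.2.2.2.1.re + s2 l := by
      change (((B ^ k : ℝ) : ℂ) * y.2.2.2.1 + ((s2 l : ℂ) + (s2 m : ℂ) * I)).re = _
      rw [add_re, re_ofReal_mul]
      simp
    show (g • y).2.2.2.1.re ∈ Icc (-2 : ℝ) 2
    rw [e]
    exact abs_le.1 hl2
  · have e : (g • y).2.2.2.1.im = B ^ k * y.2.2.2.1.im + s2 m := by
      change (((B ^ k : ℝ) : ℂ) * y.2.2.2.1 + ((s2 l : ℂ) + (s2 m : ℂ) * I)).im = _
      rw [add_im, im_ofReal_mul]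
      simp
    show (g • y).2.2.2.1.im ∈ Icc (-2 : ℝ) 2
    rw [e]
    exact abs_le.1 hm2
  · have e : ((g • y).2.2.2.2 i).re = (y.2.2.2.2 i + (j : ℂ) * c).re + a i := by
      change (y.2.2.2.2 i + ((j : ℂ) * c + (((a i : ℤ) : ℂ) + ((b i : ℤ) : ℂ) * I))).re = _
      simp
      ring
    show ((g • y).2.2.2.2 i).re ∈ Icc (-1 : ℝ) 1
    rw [e]
    exact abs_le.1 (hab i)
  · have e : ((g • y).2.2.2.2 i).im = (y.2.2.2.2 i + (j : ℂ) * c).im + b i := by
      change (y.2.2.2.2 i + ((j : ℂ) * c + (((a i : ℤ) : ℂ) + ((b i : ℤ) : ℂ) * I))).im = _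
      simp
      ring
    show ((g • y).2.2.2.2 i).im ∈ Icc (-1 : ℝ) 1
    rw [e]
    exact abs_le.1 (hab' i)

theorem XX_compact (hN : 0 < N) : CompactSpace (XX N r c) := by
  have h : qq '' KK N r c = univ := by
    rw [eq_univ_iff_forall]
    intro x
    obtain ⟨y, rfl⟩ := qq_surj x
    obtain ⟨g, hg⟩ := KK_orbit hN y
    exact ⟨_, hg, qq_smul g y⟩
  rw [← isCompact_univ_iff, ← h]
  exact KK_compact.image (qq_local hN).continuous

theorem XX_sc (hN : 0 < N) : SecondCountableTopology (XX N r c) := by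
  letI := XX_charted (r := r) (c := c) hN
  haveI := XX_compact (r := r) (c := c) hN
  exact ChartedSpace.secondCountable_of_sigmaCompact (Fin (3 + r) → ℂ) (XX N r c)

end

end Pool.Agent.Y166.PS
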